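import Pool.Agent.H491R4.TW2

/-! # The product of Birch and Swinnerton-Dyer for almost all quadratic twists of any curve by the members of automatic sets

The quadratic twist `E_D` of the curve `y² = x³ + a x + b` by `D` is `y² = x³ + a D² x + b D³`. Here `D` runs through an
arbitrary automatic set `S` (the set of the integers whose digits in a base `B` are accepted by a finite automaton) of more
than polylogarithmic size; such sets may have as few as `N ^ c` elements below `N`, with arbitrarily small `c > 0`.

For all `x` between a power of `log N` and a fixed power of `N`, and for ALL curves `y² = x³ + a x + b`, the logarithm of the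
product `P(x)` of `#E_D(F_p) / p` over the primes `p ≤ x` of good reduction of `E_D` has the normal order `centre a b x`, the
sum of `1 / p - a_p² / (2 p²)` over the primes `p ≤ x` of good reduction of `y² = x³ + a x + b`, with fluctuations of order at
most `(log log x) ^ (1 / 2)`; the bound for the exceptions does not depend on the curve. (By the theorem of Rankin and Selberg
the centre is `(log log x) / 2 + O(1)` for a fixed curve; this is not used and not proved here.)

Definitions used: in `Pool.Agent.H491R4.AF` (file `Pool/Agent/H491R4/AF2.lean`): `acc B M N E`: the number of the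
integers `v < N` accepted by the automaton `M` (reading the digits of `v` in base `B`, the least significant digit first)
with the property `E`; `AlmostS B M N κ c τ P`: the proportion of the `v < N` accepted by `M` for which `c + κ v` does not
have the property `P` is at most `τ`; in `Pool.Agent.W263.BSD` (file `Pool/Agent/W263/BSD/Defs.lean`):
`pointCount a b p` is the number of the solutions of `y² = x³ + a x + b` modulo `p`, `GoodPrime a b p`: `p` is a prime which
does not divide `2 (4 a³ + 27 b²)`. -/

set_option autoImplicit false

namespace Pool.Agent.Results.MP_3283e1_nt.AutomaticTwists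

open Finset Filter Pool.Agent.H491R4.AF
open Pool.Agent.R459.Eq (pri mem_pri)
open Pool.Agent.W263.BSD (GoodPrime pointCount)
open Pool.Agent.R459.Bsd (GG)
open Pool.Agent.H491R4.TW (HH cc)

open Classical in
/-- The product of `(N_p + 1) / p` over the primes `p ≤ x` of good reduction of `y² = x³ + a x + b`; `N_p + 1` is the number of
the points over `F_p`, including the point at infinity. -/
noncomputable def product (a b : ℤ) (x : ℕ) : ℝ :=
  ∏ p ∈ (range (x + 1)).filter (fun p => GoodPrime a b p), ((pointCount a b p : ℝ) + 1) / p

open Classical in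
/-- The sum of `1 / p - a_p² / (2 p²)`, `a_p = p - N_p`, over the primes `p ≤ x` of good reduction of `y² = x³ + a x + b`. -/
noncomputable def centre (a b : ℤ) (x : ℕ) : ℝ :=
  ∑ p ∈ (range (x + 1)).filter (fun p => GoodPrime a b p), (1 / (p : ℝ) - ((p : ℝ) - pointCount a b p) ^ 2 / (2 * (p : ℝ) ^ 2))

lemma product_eq (a b D : ℤ) (x : ℕ) : Real.log (product (a * D ^ 2) (b * D ^ 3) x) = ∑ p ∈ pri x, HH a b p D := by
  classical
  unfold product
  rw [Real.log_prod]
  · have e : ∑ p ∈ pri x, HH a b p D =
        ∑ p ∈ (range (x + 1)).filter (fun p => GoodPrime (a * D ^ 2) (b * D ^ 3) p), HH a b p D := by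
      symm
      apply sum_subset
      · intro p hp
        rw [mem_filter, mem_range] at hp
        rw [mem_pri]
        exact ⟨by omega, hp.2.1⟩
      · intro p hp hnp
        rw [mem_pri] at hp
        unfold HH GG
        rw [if_neg]
        intro hg
        apply hnp
        rw [mem_filter, mem_range]
        exact ⟨by omega, hg⟩
    rw [e]
    apply sum_congr rfl
    intro p hp
    unfold HH GG
    rw [if_pos (mem_filter.1 hp).2]
  · intro p hp
    rw [mem_filter] at hp
    have : (0 : ℝ) < p := by exact_mod_cast hp.2.1.pos
    positivity

lemma centre_eq (a b : ℤ) (x : ℕ) : centre a b x = ∑ p ∈ pri x, cc a b p := by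
  classical
  unfold centre
  have e : ∑ p ∈ pri x, cc a b p = ∑ p ∈ (range (x + 1)).filter (fun p => GoodPrime a b p), cc a b p := by
    symm
    apply sum_subset
    · intro p hp
      rw [mem_filter, mem_range] at hp
      rw [mem_pri]
      exact ⟨by omega, hp.2.1⟩
    · intro p hp hnp
      rw [mem_pri] at hp
      unfold cc
      rw [if_neg]
      intro hg
      apply hnp
      rw [mem_filter, mem_range]
      exact ⟨by omega, hg⟩
  rw [e]
  apply sum_congr rfl
  intro p hp
  unfold cc
  rw [if_pos (mem_filter.1 hp).2]

/-- **The product of Birch and Swinnerton-Dyer for almost all quadratic twists by the members of automatic sets.** Let `S` be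
the set of the integers `v ≥ 0` whose digits in base `B ≥ 2` are accepted by a finite automaton `M`, and suppose that `S` has
more than polylogarithmic size: for every `k` there are infinitely many `N` such that more than `(log N) ^ k` elements of `S`
are smaller than `N`. There are `W`, `e` and `N₀` such that for all `κ ≠ 0` there is `C > 0` with the following property.

For all `N ≥ N₀`, ALL integers `a`, `b`, `c`, all `x` with `(log N) ^ e ≤ x` and `x ^ W ≤ N` and all `l > 0`: almost all the
`D = c + κ v` with `v ∈ S`, `v < N`, up to a proportion of at most `C / l²`, satisfy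
`|log P_D(x) - centre a b x| ≤ l (log log x) ^ (1 / 2)`, where `P_D(x)` is the product of `#E_D(F_p) / p` over the primes `p ≤ x`
of good reduction of the twist `E_D : y² = x³ + a D² x + b D³`. -/
theorem result {σ : Type} [Fintype σ] (B : ℕ) (hB : 2 ≤ B) (M : DFA ℕ σ)
    (hS : ∀ k : ℕ, ∃ᶠ N : ℕ in atTop, Real.log N ^ k < (acc B M N (fun _ => True) : ℝ)) : ∃ W e N₀ : ℕ, 1 ≤ W ∧
    ∀ κ : ℤ, κ ≠ 0 → ∃ C : ℝ, 0 < C ∧ ∀ N : ℕ, N₀ ≤ N → ∀ a b c : ℤ, ∀ x : ℕ, Real.log N ^ e ≤ x → x ^ W ≤ N →
      ∀ l : ℝ, 0 < l → AlmostS B M N κ c (C / l ^ 2) (fun D =>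
        |Real.log (product (a * D ^ 2) (b * D ^ 3) x) - centre a b x| ≤ l * √(Real.log (Real.log x))) := by
  classical
  obtain ⟨W, e, N₀, hW, K⟩ := Pool.Agent.H491R4.TW.tw_aut B hB M hS
  refine ⟨W, e, N₀, hW, fun κ hκ => ?_⟩
  obtain ⟨C, hC, J⟩ := K κ hκ
  refine ⟨C, hC, fun N hN a b c x hx hxW l hl => ?_⟩
  refine AlmostS.mono (J N hN a b c x hx hxW l hl) ?_
  intro D hD
  rw [product_eq, centre_eq]
  exact hD

end Pool.Agent.Results.MP_3283e1_nt.AutomaticTwists
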