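import Pool.Agent.R429.DM.Crv2

/-!
# Goldfeld's theorem for the Birch and Swinnerton-Dyer products with arbitrary weights

Let `E : y² = x³ + a x + b` be an elliptic curve over `ℚ`, `a, b ∈ ℤ`, let `F` be the entire continuation of
its incomplete `L`-series and `N_p` the number of affine points modulo `p`, so that `#E(𝔽_p) = N_p + 1`.
Birch and Swinnerton-Dyer conjectured `∏_{p ≤ X} #E(𝔽_p)/p ∼ A (log X)^rank`, and Goldfeld (1982) showed that
such an asymptotic formula with any exponent `ρ` implies the Riemann hypothesis for `F` and `ρ = ord_{s=1} F`.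

Let `K : (0, 1] → ℝ` be ANY bounded measurable function (it may change sign, vanish on intervals or be totally
discontinuous), which is not almost everywhere `0`, and let `β ∈ (0, 1]` be the essential supremum of its support.
Let

`S_K(X) = ∑_{p ≤ X, p ∤ 2Δ} K (log p / log X) log (#E(𝔽_p)/p)`,

the logarithm of the product `∏_{p ≤ X} (#E(𝔽_p)/p) ^ K(log p / log X)`. (`K = 1`: the original product;
`K(v) = (1 - v)^k`: the Riesz means; `K` the indicator function of `(α, β]`: the quotient
`P(X^β)/P(X^α)`.) It is shown, for every elliptic curve and without any hypothesis: if `K(v) → κ` as `v → 0` and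
`S_K(X) = (ρ + o(1)) log log X` for ALMOST all `X`, then `F` has no zeros with `Re s > 1` and
`ρ = κ ord_{s=1} F`. This is Goldfeld's theorem for all weights (and for `K = 1` the hypothesis is much weaker than
an asymptotic formula). (For the exponents of growth of `S_K` and zeros off the line see
`MP_553913_nt.ExactExponents`.)

Proof. For `Re w > 1` the Laplace transform of `S_K(e^T)` is the multiplicative convolution
`∫_0^1 K(u) u⁻² D(w/u) du`, `D` a Dirichlet series, `D = Φ'/Φ - G'` with `Φ(w) = F(1 + w)` up to finitely many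
Euler factors and `G` holomorphic for `Re w > 0`. Let `z₀` be the last zero on a ray through `0`. In a thin cone
around the ray `[z₀, ∞)` the convolution of the regular part of `D` is holomorphic, the left side is holomorphic
by the hypothesis, and the convolution of `K` with the pole is a Stieltjes transform
`m ∫_0^1 K(u) du / (w - u)` (in the coordinate `w/z₀`); it jumps by `2πi m K` across the ray, so
(by the boundary behaviour of Poisson integrals) `K = 0` almost everywhere in a left neighbourhood of `1`.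
A dilation reduces the case that `K = 0` a.e. on `(β, 1]` to `β = 1`. The order follows from the behaviour of the
transform at `w → 0`.
-/

set_option autoImplicit false

namespace Pool.Agent.Results.MP_3283e1_nt.EveryWeight

open Pool.Agent.W263.BSD Filter Topology Classical MeasureTheory Set

/-- `S_K(X)`: the sum of `K (log p / log X) log ((N_p + 1) / p)` over the primes `p ≤ X`, `p ∤ 2Δ`. -/
noncomputable def weighted (a b : ℤ) (K : ℝ → ℝ) (X : ℝ) : ℝ :=
  ∑ p ∈ (Finset.range (⌊X⌋₊ + 1)).filter (GoodPrime a b),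
    K (Real.log p / Real.log X) * Real.log (((pointCount a b p : ℝ) + 1) / p)

/-- `F` has no zeros with `Re s > 1 + y`. -/
def NoZeros (F : ℂ → ℂ) (y : ℝ) : Prop := ∀ s : ℂ, 1 + y < s.re → F s ≠ 0

/-- The statement `P` holds for almost all (Lebesgue measure) sufficiently large real numbers. -/
def AlmostAllLarge (P : ℝ → Prop) : Prop := ∃ X₀ : ℝ, ∀ᵐ X : ℝ, X₀ ≤ X → P X

/-- `K` is almost everywhere `0` on `(α, β]`. -/
def Vanishes (K : ℝ → ℝ) (α β : ℝ) : Prop := ∀ᵐ u : ℝ, u ∈ Ioc α β → K u = 0

/-- the weight, extended by zero -/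
theorem weighted_eq (a b : ℤ) (K : ℝ → ℝ) (X : ℝ) :
    weighted a b K X = Pool.Agent.R429.DM.wtd a b ((Ioc (0 : ℝ) 1).indicator K) X := by
  unfold weighted Pool.Agent.R429.DM.wtd
  refine Finset.sum_congr rfl fun p hp => ?_
  rw [Finset.mem_filter, Finset.mem_range] at hp
  have hp2 : 2 ≤ p := hp.2.1.two_le
  have hX : 0 ≤ X := by
    by_contra h
    push Not at h
    rw [Nat.floor_of_nonpos h.le] at hp
    omega
  have hpX : (p : ℝ) ≤ X := by
    have h2 : (p : ℝ) ≤ (⌊X⌋₊ : ℝ) := by exact_mod_cast (by omega : p ≤ ⌊X⌋₊)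
    exact h2.trans (Nat.floor_le hX)
  have hp1 : (1 : ℝ) < p := by exact_mod_cast (by omega : 1 < p)
  have h1 : 0 < Real.log p := Real.log_pos hp1
  have h2 : Real.log p ≤ Real.log X := Real.log_le_log (by linarith) hpX
  have h3 : 0 < Real.log X := by linarith
  rw [indicator_of_mem]
  exact ⟨by positivity, by rw [div_le_one h3]; exact h2⟩

/-- **Goldfeld's theorem for arbitrary weights.** -/
theorem result (a b : ℤ) (_hΔ : 4 * a ^ 3 + 27 * b ^ 2 ≠ 0) (F : ℂ → ℂ) (hF : IsLSeries a b F)
    (K : ℝ → ℝ) (hK : Measurable K) (M : ℝ) (hM : ∀ u ∈ Ioc (0 : ℝ) 1, |K u| ≤ M)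
    (h0 : ¬ Vanishes K 0 1) (κ ρ : ℝ) (hκ : Tendsto K (𝓝[>] 0) (𝓝 κ))
    (h : ∀ ε : ℝ, 0 < ε → AlmostAllLarge fun X =>
      |weighted a b K X - ρ * Real.log (Real.log X)| ≤ ε * Real.log (Real.log X)) :
    NoZeros F 0 ∧ ∃ m : ℕ, analyticOrderAt F 1 = m ∧ ρ = κ * m := by
  set K' : ℝ → ℝ := (Ioc (0 : ℝ) 1).indicator K with hK'
  have hKm : Measurable K' := hK.indicator measurableSet_Ioc
  have hM' : ∀ u, |K' u| ≤ max M 0 := by
    intro u
    rw [hK']
    by_cases hu : u ∈ Ioc (0 : ℝ) 1
    · rw [indicator_of_mem hu]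
      exact (hM u hu).trans (le_max_left _ _)
    · rw [indicator_of_notMem hu, abs_zero]
      exact le_max_right _ _
  have hkk : ∀ u ∈ Ioc (0 : ℝ) 1, K' u = K u := fun u hu => indicator_of_mem hu K
  simp only [weighted_eq] at h
  have hne : ¬ ∀ᵐ u : ℝ, u ∈ Ioc 0 1 → K' u = 0 := by
    intro h'
    refine h0 ?_
    unfold Vanishes
    filter_upwards [h'] with u h1 h2
    rw [← hkk u ⟨h2.1, h2.2⟩]
    exact h1 h2
  have hκ' : Tendsto K' (𝓝[>] 0) (𝓝 κ) := by
    refine hκ.congr' ?_
    filter_upwards [Ioc_mem_nhdsGT (show (0 : ℝ) < 1 by norm_num)] with u hu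
    exact (hkk u hu).symm
  obtain ⟨h1, h2⟩ := Pool.Agent.R429.DM.wtd_order hF hKm hM' hκ' hne h
  exact ⟨fun s hs => h1 s (by linarith), h2⟩

end Pool.Agent.Results.MP_3283e1_nt.EveryWeight
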