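import Pool.Agent.W263.BSD.Lead8
import Pool.Agent.W263.BSD.OrderFinal
import Pool.Agent.TH941.Newform

/-!
# One-sided criteria for the original asymptotic of Birch and Swinnerton-Dyer

Let `E : y² = x³ + a x + b` be an elliptic curve over `ℚ`, `a, b ∈ ℤ`, let `F` be the entire continuation of
its incomplete `L`-series (the Euler factors at the primes dividing `2Δ` are removed), `f` its newform, `N_p` the
number of affine points modulo `p`, so that `#E(𝔽_p) = N_p + 1`, and `m` the order of `F` at the central point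
`s = 1`. Let

`P(x) = ∏_{p ≤ x, p ∤ 2Δ} #E(𝔽_p)/p`

be the original product of Birch and Swinnerton-Dyer. For every such curve and every real `ρ` (in the conjecture
`ρ` is the rank) the following is proved.

(1) `P(x) ∼ A (log x)^ρ` for some `A > 0` if and only if `ρ = m` and `P` is slowly varying FROM ABOVE in `log x`:
for every `ε > 0` there is `δ > 0` with `P(y) ≤ (1 + ε) P(x)` for all large `x` and `x ≤ y ≤ x^(1+δ)`. Neither the
Riemann hypothesis nor a lower bound is assumed, and `A = √2 e^{mγ} m!/|F^{(m)}(1)|`. The same with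
`P(x) ≤ (1 + ε) P(y)` (slowly varying from below), if `F` has no REAL zeros `> 1`.

(2) `P(x) ≍ (log x)^ρ` if and only if `ρ = m` and `P(y) ≤ K P(x)` for some `K`, all large `x` and
`x ≤ y ≤ x²`; and also if and only if `ρ = m`, `F` has no real zeros `> 1` and `P(x) ≤ K P(y)` in this range.

(3) each of these conditions implies that `F` has no zeros with `Re s > 1` (by the functional equation: the Riemann
hypothesis for `E`).

The proofs are Tauberian. A one-sided bound makes the Laplace transform of `log P(e^t)` converge up to the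
first real singularity (Landau), there are none except `0`, since the logarithm of `F` has no real
singularities where it converges; the exact growth of the transform at `0` and the one-sided condition bound
`log P` from both sides (the mass above the level would be carried by a long interval).
-/

set_option autoImplicit false

namespace Pool.Agent.Results.MP_3283e1_nt.OneSidedCriteria

open Pool.Agent.W263.BSD Filter Topology Classical
open CongruenceSubgroup UpperHalfPlane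
open scoped MatrixGroups

/-- `P(x)`: the product of `(N_p + 1) / p` over the primes `p ≤ x`, `p ∤ 2Δ`. -/
noncomputable def product (a b : ℤ) (x : ℝ) : ℝ :=
  ∏ p ∈ (Finset.range (⌊x⌋₊ + 1)).filter (GoodPrime a b), (((pointCount a b p : ℝ) + 1) / p)

/-- The `n`-th Fourier coefficient of `f`. -/
noncomputable def coef {N : ℕ} (f : CuspForm (Gamma0 N : Subgroup (GL (Fin 2) ℝ)) 2) (n : ℕ) : ℂ :=
  (qExpansion 1 f).coeff n

/-- `f ∈ S_2(Γ₀(N))` is the newform of the elliptic curve `E : y² = x³ + a x + b` of conductor `N`: the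
Fourier coefficients `c(n)` of `f` are real with `c(1) = 1`, they satisfy the Hecke relations
`c(mn) = c(m) c(n)` for coprime `m`, `n` and `c(p^(j+2)) = c(p) c(p^(j+1)) - p c(p^j)` (without the last
term if `p ∣ N`), `c(p) = a_p = p - N_p` (`N_p` affine points) for all primes `p ∤ 2Δ`, `|c(p)| ≤ 2 √p` for
all `p ∤ N` (Hasse) and `c(p) = 0, 1, -1` for `p ∣ N`. -/
structure IsNewformOf (a b : ℤ) (N : ℕ) (f : CuspForm (Gamma0 N : Subgroup (GL (Fin 2) ℝ)) 2) :
    Prop where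
  one : coef f 1 = 1
  real : ∀ n, (coef f n).im = 0
  mul : ∀ m n : ℕ, Nat.Coprime m n → coef f (m * n) = coef f m * coef f n
  pow : ∀ p j : ℕ, p.Prime → coef f (p ^ (j + 2)) = coef f p * coef f (p ^ (j + 1)) -
      (if p ∣ N then 0 else (p : ℂ) * coef f (p ^ j))
  points : ∀ p : ℕ, GoodPrime a b p → coef f p = (p : ℂ) - (pointCount a b p : ℂ)
  good : ∀ p : ℕ, p.Prime → ¬ p ∣ N → ‖coef f p‖ ≤ 2 * Real.sqrt p
  bad : ∀ p : ℕ, p.Prime → p ∣ N → coef f p = 0 ∨ coef f p = 1 ∨ coef f p = -1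

/-- `F` has no zeros with `Re s > 1`. -/
def NoZeros (F : ℂ → ℂ) : Prop := ∀ s : ℂ, 1 < s.re → F s ≠ 0

/-- `F` has no real zeros `> 1`. -/
def NoRealZeros (F : ℂ → ℂ) : Prop := ∀ s : ℝ, 1 < s → F s ≠ 0

/-- `P` is slowly varying from above in `log x`. -/
def SlowAbove (a b : ℤ) : Prop := ∀ ε : ℝ, 0 < ε → ∃ δ : ℝ, 0 < δ ∧ ∀ᶠ x : ℝ in atTop,
  ∀ y, x ≤ y → y ≤ x ^ (1 + δ) → product a b y ≤ (1 + ε) * product a b x

/-- `P` is slowly varying from below in `log x`. -/
def SlowBelow (a b : ℤ) : Prop := ∀ ε : ℝ, 0 < ε → ∃ δ : ℝ, 0 < δ ∧ ∀ᶠ x : ℝ in atTop,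
  ∀ y, x ≤ y → y ≤ x ^ (1 + δ) → product a b x ≤ (1 + ε) * product a b y

/-- `P(y) ≤ K P(x)` for `x ≤ y ≤ x²`. -/
def DoublingAbove (a b : ℤ) : Prop := ∃ K : ℝ, ∀ᶠ x : ℝ in atTop, ∀ y, x ≤ y → y ≤ x ^ 2 →
  product a b y ≤ K * product a b x

/-- `P(x) ≤ K P(y)` for `x ≤ y ≤ x²`. -/
def DoublingBelow (a b : ℤ) : Prop := ∃ K : ℝ, ∀ᶠ x : ℝ in atTop, ∀ y, x ≤ y → y ≤ x ^ 2 →
  product a b x ≤ K * product a b y

theorem hecke {a b : ℤ} {N : ℕ} {f : CuspForm (Gamma0 N : Subgroup (GL (Fin 2) ℝ)) 2}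
    (hf : IsNewformOf a b N f) : Pool.Agent.TH941.Hecke f where
  one := hf.one
  real := hf.real
  mul := hf.mul
  pow := hf.pow
  good := hf.good
  bad := fun p hp h => by
    rcases hf.bad p hp h with h1 | h1 | h1
    · have h2 : ‖coef f p‖ ≤ 1 := by rw [h1]; simp
      exact h2
    · have h2 : ‖coef f p‖ ≤ 1 := by rw [h1]; simp
      exact h2
    · have h2 : ‖coef f p‖ ≤ 1 := by rw [h1]; simp
      exact h2

section

variable {a b : ℤ}

theorem log_sq {x y : ℝ} (hx : 1 < x) (hxy : x ≤ y) (hy : y ≤ x ^ 2) :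
    Real.log x ≤ Real.log y ∧ Real.log y ≤ 2 * Real.log x := by
  refine ⟨Real.log_le_log (by linarith) hxy, ?_⟩
  have := Real.log_le_log (by linarith) hy
  rwa [Real.log_pow, Nat.cast_ofNat] at this

/-- powers of the logarithm are doubling -/
theorem rpow_dbl {ρ : ℝ} {u v : ℝ} (hu : 0 < u) (huv : u ≤ v) (hv : v ≤ 2 * u) :
    v ^ ρ ≤ 2 ^ |ρ| * u ^ ρ ∧ u ^ ρ ≤ 2 ^ |ρ| * v ^ ρ := by
  have hv0 : 0 < v := hu.trans_le huv
  have h1 : (1 : ℝ) ≤ v / u := by rw [le_div_iff₀ hu]; linarith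
  have h2 : v / u ≤ 2 := by rw [div_le_iff₀ hu]; linarith
  have h3 : v ^ ρ = (v / u) ^ ρ * u ^ ρ := by
    rw [← Real.mul_rpow (by positivity) hu.le, div_mul_cancel₀ _ hu.ne']
  have h4 : (v / u) ^ ρ ≤ 2 ^ |ρ| :=
    (Real.rpow_le_rpow_of_exponent_le h1 (le_abs_self ρ)).trans
      (Real.rpow_le_rpow (by positivity) h2 (abs_nonneg ρ))
  have h5 : u ^ ρ = (v / u) ^ (-ρ) * v ^ ρ := by
    rw [h3, Real.rpow_neg (by positivity), ← mul_assoc, inv_mul_cancel₀ (by positivity), one_mul]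
  have h6 : (v / u) ^ (-ρ) ≤ 2 ^ |ρ| := by
    have := (Real.rpow_le_rpow_of_exponent_le h1 (le_abs_self (-ρ))).trans
      (Real.rpow_le_rpow (by positivity) h2 (abs_nonneg (-ρ)))
    rwa [abs_neg] at this
  constructor
  · rw [h3]; exact mul_le_mul_of_nonneg_right h4 (by positivity)
  · rw [h5]
    exact mul_le_mul_of_nonneg_right h6 (by positivity)

/-- an exact order implies both doubling conditions -/
theorem doubling_of_order {ρ c C : ℝ} (hc : 0 < c)
    (h : ∀ᶠ x : ℝ in atTop, c * (Real.log x) ^ ρ ≤ bsdProduct a b x ∧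
      bsdProduct a b x ≤ C * (Real.log x) ^ ρ) :
    (∃ K : ℝ, ∀ᶠ x : ℝ in atTop, ∀ y, x ≤ y → y ≤ x ^ 2 →
      bsdProduct a b y ≤ K * bsdProduct a b x) ∧
    ∃ K : ℝ, ∀ᶠ x : ℝ in atTop, ∀ y, x ≤ y → y ≤ x ^ 2 →
      bsdProduct a b x ≤ K * bsdProduct a b y := by
  obtain ⟨x0, h0⟩ := eventually_atTop.1 h
  have key : ∀ x, max x0 2 ≤ x → ∀ y, x ≤ y → y ≤ x ^ 2 →
      bsdProduct a b y ≤ (|C| * 2 ^ |ρ| / c) * bsdProduct a b x ∧
      bsdProduct a b x ≤ (|C| * 2 ^ |ρ| / c) * bsdProduct a b y := by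
    intro x hx y hxy hy
    have hx0 : x0 ≤ x := (le_max_left _ _).trans hx
    have hx2 : (2 : ℝ) ≤ x := (le_max_right _ _).trans hx
    have hlx : 0 < Real.log x := Real.log_pos (by linarith)
    obtain ⟨h1, h2⟩ := log_sq (by linarith) hxy hy
    have hly : 0 < Real.log y := hlx.trans_le h1
    obtain ⟨h3, h4⟩ := rpow_dbl (ρ := ρ) hlx h1 h2
    obtain ⟨h5, h6⟩ := h0 x hx0
    obtain ⟨h7, h8⟩ := h0 y (hx0.trans hxy)
    have hpx : 0 < (Real.log x) ^ ρ := Real.rpow_pos_of_pos hlx _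
    have hpy : 0 < (Real.log y) ^ ρ := Real.rpow_pos_of_pos hly _
    have h2ρ : (0 : ℝ) < 2 ^ |ρ| := by positivity
    have e : ∀ t : ℝ, |C| * 2 ^ |ρ| * t = (|C| * 2 ^ |ρ| / c) * (c * t) := by
      intro t; field_simp
    constructor
    · calc bsdProduct a b y ≤ C * (Real.log y) ^ ρ := h8
        _ ≤ |C| * (Real.log y) ^ ρ := mul_le_mul_of_nonneg_right (le_abs_self C) hpy.le
        _ ≤ |C| * (2 ^ |ρ| * (Real.log x) ^ ρ) := mul_le_mul_of_nonneg_left h3 (abs_nonneg C)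
        _ = (|C| * 2 ^ |ρ| / c) * (c * (Real.log x) ^ ρ) := by rw [← e]; ring
        _ ≤ _ := mul_le_mul_of_nonneg_left h5 (by positivity)
    · calc bsdProduct a b x ≤ C * (Real.log x) ^ ρ := h6
        _ ≤ |C| * (Real.log x) ^ ρ := mul_le_mul_of_nonneg_right (le_abs_self C) hpx.le
        _ ≤ |C| * (2 ^ |ρ| * (Real.log y) ^ ρ) := mul_le_mul_of_nonneg_left h4 (abs_nonneg C)
        _ = (|C| * 2 ^ |ρ| / c) * (c * (Real.log y) ^ ρ) := by rw [← e]; ring
        _ ≤ _ := mul_le_mul_of_nonneg_left h7 (by positivity)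
  refine ⟨⟨|C| * 2 ^ |ρ| / c, ?_⟩, ⟨|C| * 2 ^ |ρ| / c, ?_⟩⟩
  · filter_upwards [eventually_ge_atTop (max x0 2)] with x hx y hxy hy
    exact (key x hx y hxy hy).1
  · filter_upwards [eventually_ge_atTop (max x0 2)] with x hx y hxy hy
    exact (key x hx y hxy hy).2

/-- the exponents of two exact orders coincide -/
theorem exponent_unique {f : ℝ → ℝ} {ρ σ c C c' C' : ℝ} (hc : 0 < c) (hc' : 0 < c')
    (h : ∀ᶠ x : ℝ in atTop, c * (Real.log x) ^ ρ ≤ f x ∧ f x ≤ C * (Real.log x) ^ ρ)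
    (h' : ∀ᶠ x : ℝ in atTop, c' * (Real.log x) ^ σ ≤ f x ∧ f x ≤ C' * (Real.log x) ^ σ) :
    ρ = σ := by
  have aux : ∀ {ρ σ c C : ℝ}, 0 < c → ρ < σ →
      (∀ᶠ x : ℝ in atTop, f x ≤ C * (Real.log x) ^ ρ) →
      (∀ᶠ x : ℝ in atTop, c * (Real.log x) ^ σ ≤ f x) → False := by
    intro ρ σ c C hc hlt h1 h2
    have h3 : Tendsto (fun x : ℝ => (Real.log x) ^ (σ - ρ)) atTop atTop :=
      (tendsto_rpow_atTop (by linarith : 0 < σ - ρ)).comp Real.tendsto_log_atTop
    obtain ⟨x, hx1, hx2, hx3, hx4⟩ := (h1.and (h2.and ((h3.eventually_gt_atTop (C / c)).and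
      (Real.tendsto_log_atTop.eventually_gt_atTop 0)))).exists
    have h5 : (Real.log x) ^ σ = (Real.log x) ^ (σ - ρ) * (Real.log x) ^ ρ := by
      rw [← Real.rpow_add hx4]; congr 1; ring
    have h6 : 0 < (Real.log x) ^ ρ := Real.rpow_pos_of_pos hx4 _
    have h7 : c * (Real.log x) ^ σ ≤ C * (Real.log x) ^ ρ := hx2.trans hx1
    rw [h5, ← mul_assoc] at h7
    have h8 := le_of_mul_le_mul_right h7 h6
    rw [div_lt_iff₀ hc] at hx3
    linarith
  rcases lt_trichotomy ρ σ with hlt | heq | hgt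
  · exact (aux hc' hlt (h.mono fun x hx => hx.2) (h'.mono fun x hx => hx.1)).elim
  · exact heq
  · exact (aux hc hgt (h'.mono fun x hx => hx.2) (h.mono fun x hx => hx.1)).elim

/-- a limit implies an exact order -/
theorem order_of_lim {f : ℝ → ℝ} {ρ A : ℝ} (hA : 0 < A)
    (h : Tendsto (fun x : ℝ => f x / (Real.log x) ^ ρ) atTop (𝓝 A)) :
    ∀ᶠ x : ℝ in atTop, (A / 2) * (Real.log x) ^ ρ ≤ f x ∧ f x ≤ (2 * A) * (Real.log x) ^ ρ := by
  filter_upwards [h.eventually (lt_mem_nhds (by linarith : A / 2 < A)),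
    h.eventually (gt_mem_nhds (by linarith : A < 2 * A)),
    Real.tendsto_log_atTop.eventually_gt_atTop 0] with x h1 h2 h3
  have h4 : 0 < (Real.log x) ^ ρ := Real.rpow_pos_of_pos h3 _
  rw [lt_div_iff₀ h4] at h1
  rw [div_lt_iff₀ h4] at h2
  exact ⟨h1.le, h2.le⟩

end

/-- **One-sided criteria for the original asymptotic of Birch and Swinnerton-Dyer.** -/
theorem result (a b : ℤ) (hΔ : 4 * a ^ 3 + 27 * b ^ 2 ≠ 0) (F : ℂ → ℂ) (hF : IsLSeries a b F)
    (N : ℕ) [NeZero N] (f : CuspForm (Gamma0 N : Subgroup (GL (Fin 2) ℝ)) 2)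
    (hf : IsNewformOf a b N f) (m : ℕ) (hm : analyticOrderAt F 1 = m) :
    (∀ ρ : ℝ, List.TFAE [
      ∃ A : ℝ, 0 < A ∧ Tendsto (fun x : ℝ => product a b x / Real.log x ^ ρ) atTop (𝓝 A),
      ρ = m ∧ Tendsto (fun x : ℝ => product a b x / Real.log x ^ ρ) atTop
        (𝓝 (√2 * Real.exp (m * Real.eulerMascheroniConstant) * m.factorial /
          ‖iteratedDeriv m F 1‖)),
      ρ = m ∧ SlowAbove a b,
      ρ = m ∧ NoRealZeros F ∧ SlowBelow a b]) ∧
    (∀ ρ : ℝ, List.TFAE [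
      ∃ c C : ℝ, 0 < c ∧ ∀ᶠ x : ℝ in atTop, c * Real.log x ^ ρ ≤ product a b x ∧
        product a b x ≤ C * Real.log x ^ ρ,
      ρ = m ∧ DoublingAbove a b,
      ρ = m ∧ NoRealZeros F ∧ DoublingBelow a b]) ∧
    (DoublingAbove a b → NoZeros F) := by
  have hrs : Tendsto (rsSum a b) atTop (𝓝 0) :=
    (hecke hf).rsSum_tendsto hΔ fun p hp => hf.points p hp
  have hlead : 0 < leadAbs F m := (lead_limit hF.1 hm).1
  have hA0 : √2 * (Real.exp (m * Real.eulerMascheroniConstant) / leadAbs F m) =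
      √2 * Real.exp (m * Real.eulerMascheroniConstant) * m.factorial / ‖iteratedDeriv m F 1‖ := by
    have h1 : ‖iteratedDeriv m F 1‖ ≠ 0 := by
      intro h
      have : leadAbs F m = 0 := by simp [leadAbs, h]
      exact hlead.ne' this
    have h2 : (m.factorial : ℝ) ≠ 0 := by positivity
    unfold leadAbs
    field_simp
  have hA1 : 0 < √2 * (Real.exp (m * Real.eulerMascheroniConstant) / leadAbs F m) := by positivity
  have ho := order_tfae hF hm
  have hl := lead_tfae hF hm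
  -- exact order with the natural exponent `m`
  have hord : DoublingAbove a b → ∃ c C : ℝ, 0 < c ∧ ∀ᶠ x : ℝ in atTop,
      c * Real.log x ^ (m : ℝ) ≤ bsdProduct a b x ∧ bsdProduct a b x ≤ C * Real.log x ^ (m : ℝ) := by
    rintro ⟨K, hK⟩
    obtain ⟨c, C, hc, h⟩ := order_of_upper_doubling hF hm hK
    refine ⟨c, C, hc, ?_⟩
    filter_upwards [h] with x hx
    rwa [Real.rpow_natCast]
  have huniq : ∀ ρ : ℝ, (∃ c C : ℝ, 0 < c ∧ ∀ᶠ x : ℝ in atTop, c * Real.log x ^ ρ ≤ product a b x ∧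
        product a b x ≤ C * Real.log x ^ ρ) → ρ = m := by
    rintro ρ ⟨c, C, hc, h⟩
    have h1 := (doubling_of_order hc h).1
    obtain ⟨c', C', hc', h'⟩ := hord h1
    exact exponent_unique hc hc' h h'
  have hcast : ∀ {A : ℝ}, Tendsto (fun x : ℝ => product a b x / Real.log x ^ (m : ℝ)) atTop (𝓝 A) ↔
      Tendsto (fun x : ℝ => bsdProduct a b x / Real.log x ^ m) atTop (𝓝 A) := by
    intro A
    refine tendsto_congr fun x => ?_
    rw [Real.rpow_natCast]
    rfl
  refine ⟨fun ρ => ?_, fun ρ => ?_, ?_⟩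
  · tfae_have 2 → 1 := by
      rintro ⟨_, h⟩
      refine ⟨_, ?_, h⟩
      rw [← hA0]; exact hA1
    tfae_have 1 → 3 := by
      rintro ⟨A, hA, h⟩
      have h1 : ρ = m := huniq ρ ⟨_, _, by positivity, order_of_lim hA h⟩
      refine ⟨h1, ?_⟩
      subst h1
      have h2 := hcast.1 h
      have h3 : A = √2 * (A / √2) := by field_simp
      rw [h3] at h2
      have h4 := (product_iff_star hΔ hrs m (A / √2)).1 h2
      have h5 : ∃ C : ℝ, 0 < C ∧
          Tendsto (fun x : ℝ => bsdStar a b x / (Real.log x) ^ m) atTop (𝓝 C) :=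
        ⟨A / √2, by positivity, h4⟩
      exact (hl.out 1 2).1 h5
    tfae_have 3 → 2 := by
      rintro ⟨h1, h⟩
      refine ⟨h1, ?_⟩
      subst h1
      have h2 := (hl.out 2 0).1 h
      have h3 := (product_iff_star hΔ hrs m _).2 h2
      rw [hA0] at h3
      exact hcast.2 h3
    tfae_have 3 → 4 := by
      rintro ⟨h1, h⟩
      exact ⟨h1, (hl.out 2 3).1 h⟩
    tfae_have 4 → 3 := by
      rintro ⟨h1, h⟩
      exact ⟨h1, (hl.out 3 2).1 h⟩
    tfae_finish
  · tfae_have 1 → 2 := by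
      rintro ⟨c, C, hc, h⟩
      exact ⟨huniq ρ ⟨c, C, hc, h⟩, (doubling_of_order hc h).1⟩
    tfae_have 2 → 1 := by
      rintro ⟨h1, h⟩
      subst h1
      exact hord h
    tfae_have 2 → 3 := by
      rintro ⟨h1, h⟩
      exact ⟨h1, (ho.out 1 2).1 h⟩
    tfae_have 3 → 2 := by
      rintro ⟨h1, h⟩
      exact ⟨h1, (ho.out 2 1).1 h⟩
    tfae_finish
  · rintro ⟨K, hK⟩ s hs
    obtain ⟨c, C, hc, h⟩ := order_of_upper_doubling hF hm hK
    exact no_zeros_of_order hF (h.mono fun x hx => hx.2) hs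

end Pool.Agent.Results.MP_3283e1_nt.OneSidedCriteria
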