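import Pool.Agent.R376.NerC
import Pool.Agent.R376.NerD
import Pool.Agent.R376.NerE
import Pool.Agent.R376.RandF

/-!
# The ranks of all elliptic curves over `ℚ` and a thin random set of primes

For an elliptic curve `C : y² = x³ + a x + b`, `a, b ∈ ℤ`, let `N_p` be the number of affine points
modulo the good primes `p ∤ 2Δ`, `r` the rank of `C(ℚ)` and `m` the order of `L(C, s)` at `s = 1`.
Birch and Swinnerton-Dyer predict `r` from the product of the local densities `(N_p + 1)/p`. We show
that almost all of the primes can be thrown away, once and for all curves.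

Let `0 < δ ≤ 1`, `0 ≤ α < 1`, and let `S` be a random set of primes: `p ∈ S` with the probability
`θ_p = δ / (1 + log (1 + log p)) ^ α`, independently. If `α > 0`, then almost every `S` has relative
density zero in the primes; more precisely `#{p ∈ S, p ≤ N} ∼ θ_N π(N)`. For almost every `S`, the
following holds for all elliptic curves over `ℚ` and all `c > π/2` simultaneously. Let

`P_S(B) = ∏_{p ∈ S, p ∤ 2Δ} ((N_p + 1)/p) ^ (w(log p / log B) / θ_p)`, `w(u) = cos (c u) / Γ (1 + u)`,

an absolutely convergent product over the primes of `S`. Then, without any hypothesis on the zeros of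
the `L`-functions,

`log P_S(B) = m log log B + O((log log B) ^ (1/2 + α/2 + ε))`.

So the analytic rank of every elliptic curve over `ℚ` can be read off from the numbers `N_p`, `p ∈ S`,
and the rank conjecture for `C` holds if and only if `log P_S(B) / log log B → rank C(ℚ)`, and if and
only if `log P_S(B) - 2 log N(B) = o(log log B)`, where `N(B)` is the number of the rational points of
height at most `B`.

Proof. Kolmogorov's theorem on the series of independent random variables (the variances are summable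
by Hasse's and Mertens' theorems) and Kronecker's lemma give the bound
`∑_{p ≤ N} (1_S(p)/θ_p - 1) log ((N_p + 1)/p) ≪ (log log N)^γ` for all `γ > (1 + α)/2`, for all `a`,
`b`; it is transferred to the products by partial summation (the kernel `w` and its variation are
exponentially small). The law for the full product is the one of `MP_696deb_nt/AnalyticRankLaw`
(starting result), the one for `N(B)` is Néron's theorem, `MP_8b7eba_nt/CountingForm`.
-/

set_option autoImplicit false

open Filter Topology MeasureTheory ProbabilityTheory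

namespace Pool.Agent.Results.MP_3283e1_nt.ThinSetsOfPrimes

/-- The number of affine points of `y² = x³ + a x + b` modulo `p`. -/
noncomputable def pointCount (a b : ℤ) (p : ℕ) : ℕ :=
  Nat.card {q : ZMod p × ZMod p // q.2 ^ 2 = q.1 ^ 3 + (a : ZMod p) * q.1 + (b : ZMod p)}

/-- `p` is a prime not dividing `2 Δ`, `Δ = -4 a³ - 27 b²`. -/
def GoodPrime (a b : ℤ) (p : ℕ) : Prop :=
  p.Prime ∧ ¬ ((p : ℤ) ∣ 2 * (-4 * a ^ 3 - 27 * b ^ 2))

open Classical in
/-- `F` is an entire function which for `Re s > 3/2` is the incomplete `L`-series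
`∏_{p ∤ 2Δ} (1 - a_p p^{-s} + p^{1-2s})⁻¹`, `a_p = p - N_p`, of `y² = x³ + a x + b`. -/
def IsLSeries (a b : ℤ) (F : ℂ → ℂ) : Prop :=
  Differentiable ℂ F ∧ ∀ s : ℂ, (3 : ℝ) / 2 < s.re →
    HasProd (fun p : ℕ => if GoodPrime a b p then
      (1 - ((p : ℂ) - (pointCount a b p : ℂ)) * (p : ℂ) ^ (-s) + (p : ℂ) ^ (1 - 2 * s))⁻¹ else 1)
      (F s)

/-- The group of the rational points of `y² = x³ + a x + b`. -/
abbrev Points (a b : ℤ) : Type :=
  WeierstrassCurve.Affine.Point (WeierstrassCurve.toAffine
    ({ a₁ := 0, a₂ := 0, a₃ := 0, a₄ := (a : ℚ), a₆ := (b : ℚ) } : WeierstrassCurve ℚ))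

/-- The rank of the group of the rational points. -/
noncomputable def rank (a b : ℤ) : ℕ := Module.finrank ℤ (Points a b)

/-- The number of the rational points of height at most `B`: the point at infinity and the rational
solutions `(x, y)` of `y² = x³ + a x + b` such that the numerator and the denominator of `x` are at
most `B` in absolute value. -/
noncomputable def count (a b : ℤ) (B : ℝ) : ℕ :=
  1 + Nat.card {q : ℚ × ℚ // q.2 ^ 2 = q.1 ^ 3 + a * q.1 + b ∧
    ((max q.1.num.natAbs q.1.den : ℕ) : ℝ) ≤ B}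

/-- The weight `w(u) = cos (c u) / Γ (1 + u)`. -/
noncomputable def weight (c u : ℝ) : ℝ := Real.cos (c * u) / Real.Gamma (1 + u)

/-- The probability `θ_n = δ / (1 + log (1 + log n)) ^ α`. -/
noncomputable def density (δ α : ℝ) (n : ℕ) : ℝ := δ / (1 + Real.log (1 + Real.log n)) ^ α

/-- The law of the random set `S ⊆ ℕ` which contains `n` with the probability `θ n` (truncated to
`[0, 1]`), independently for all `n`; a set is a sequence in `Bool`. -/
noncomputable def randomSet (θ : ℕ → ℝ) : Measure (ℕ → Bool) :=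
  Measure.infinitePi fun n => bernoulliMeasure true false (Set.projIcc (0 : ℝ) 1 zero_le_one (θ n))

/-- The number of the primes `p ≤ N` in `S`. -/
noncomputable def primesIn (S : ℕ → Bool) (N : ℕ) : ℕ :=
  ((Finset.range (N + 1)).filter fun p => p.Prime ∧ S p = true).card

open Classical in
/-- The product `P_S(B)` of the local densities `(N_p + 1) / p` over the good primes of `S`, with the
exponents `w(log p / log B) / θ_p`. -/
noncomputable def thinProduct (a b : ℤ) (δ α c : ℝ) (S : ℕ → Bool) (B : ℝ) : ℝ :=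
  ∏' p : ℕ, if GoodPrime a b p ∧ S p = true then
    (((pointCount a b p : ℝ) + 1) / p) ^ (weight c (Real.log p / Real.log B) / density δ α p) else 1

/-! ### two limits -/

theorem loglog_atTop : Tendsto (fun B : ℝ => Real.log (Real.log B)) atTop atTop :=
  Real.tendsto_log_atTop.comp Real.tendsto_log_atTop

theorem lim_of_law {L : ℝ → ℝ} {m : ℕ} {γ K : ℝ} (hγ0 : 0 ≤ γ) (hγ : γ < 1)
    (h : ∀ B : ℝ, 3 ≤ B → |L B - m * Real.log (Real.log B)| ≤
      K * (1 + Real.log (Real.log B)) ^ γ) :
    Tendsto (fun B => L B / Real.log (Real.log B)) atTop (𝓝 (m : ℝ)) := by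
  have h1 : Tendsto (fun B : ℝ => |K| * 2 ^ γ * Real.log (Real.log B) ^ (-(1 - γ))) atTop
      (𝓝 0) := by
    have e1 := ((tendsto_rpow_neg_atTop (show 0 < 1 - γ by linarith)).comp
      loglog_atTop).const_mul (|K| * 2 ^ γ)
    rwa [mul_zero] at e1
  rw [tendsto_iff_norm_sub_tendsto_zero]
  refine squeeze_zero' (Eventually.of_forall fun B => norm_nonneg _) ?_ h1
  filter_upwards [loglog_atTop.eventually (eventually_ge_atTop (1 : ℝ)), eventually_ge_atTop 3]
    with B h2 h3
  set l : ℝ := Real.log (Real.log B) with hl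
  have hl0 : 0 < l := by linarith
  have e1 : L B / l - m = (L B - m * l) / l := by
    field_simp
  rw [Real.norm_eq_abs, e1, abs_div, abs_of_pos hl0, div_le_iff₀ hl0]
  refine (h B h3).trans ?_
  have e2 : (1 + l) ^ γ ≤ (2 * l) ^ γ := Real.rpow_le_rpow (by linarith) (by linarith) hγ0
  rw [Real.mul_rpow (by norm_num) hl0.le] at e2
  have e3 : l ^ (-(1 - γ)) * l = l ^ γ := by
    nth_rewrite 2 [← Real.rpow_one l]
    rw [← Real.rpow_add hl0]
    congr 1
    ring
  have e4 : 0 ≤ (1 + l) ^ γ := Real.rpow_nonneg (by linarith) _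
  calc K * (1 + l) ^ γ ≤ |K| * (1 + l) ^ γ := mul_le_mul_of_nonneg_right (le_abs_self K) e4
    _ ≤ |K| * (2 ^ γ * l ^ γ) := mul_le_mul_of_nonneg_left e2 (abs_nonneg K)
    _ = |K| * 2 ^ γ * l ^ (-(1 - γ)) * l := by
        rw [← e3]
        ring

theorem lim_count {f : ℝ → ℝ} {r : ℕ} {κ : ℝ} (hκ : 0 < κ)
    (h : Tendsto (fun B => f B / Real.log B ^ ((r : ℝ) / 2)) atTop (𝓝 κ)) :
    Tendsto (fun B => 2 * Real.log (f B) / Real.log (Real.log B)) atTop (𝓝 (r : ℝ)) := by
  have h1 := h.log hκ.ne'
  have h2 : Tendsto (fun B : ℝ => 2 * (Real.log (f B / Real.log B ^ ((r : ℝ) / 2)) /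
      Real.log (Real.log B)) + r) atTop (𝓝 (2 * 0 + r)) :=
    ((h1.div_atTop loglog_atTop).const_mul 2).add_const _
  rw [mul_zero, zero_add] at h2
  refine h2.congr' ?_
  filter_upwards [loglog_atTop.eventually (eventually_ge_atTop (1 : ℝ)),
    h.eventually (lt_mem_nhds hκ), Real.tendsto_log_atTop.eventually (eventually_gt_atTop (0 : ℝ))]
    with B h3 h4 h5
  have h6 : 0 < Real.log B ^ ((r : ℝ) / 2) := Real.rpow_pos_of_pos h5 _
  have h7 : f B ≠ 0 := by
    intro h8
    rw [h8, zero_div] at h4
    exact lt_irrefl _ h4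
  rw [Real.log_div h7 h6.ne', Real.log_rpow h5]
  have h8 : Real.log (Real.log B) ≠ 0 := by linarith
  field_simp
  ring

open Classical in
/-- **A thin random set of primes decides the analytic ranks of all elliptic curves over `ℚ`.** -/
theorem result (δ α : ℝ) (hδ : 0 < δ) (hδ1 : δ ≤ 1) (hα : 0 ≤ α) (hα1 : α < 1) :
    ∀ᵐ S ∂(randomSet (density δ α)),
      -- the set of the primes in `S` has the relative density `density δ α N`
      Tendsto (fun N : ℕ => (primesIn S N : ℝ) * (1 + Real.log (1 + Real.log N)) ^ α /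
        Nat.primeCounting N) atTop (𝓝 δ) ∧
      ∀ a b : ℤ, 4 * a ^ 3 + 27 * b ^ 2 ≠ 0 → ∀ F : ℂ → ℂ, IsLSeries a b F →
      ∀ c : ℝ, Real.pi / 2 < c →
        -- the products over the primes of `S` converge
        (∀ B : ℝ, 1 < B → Multipliable fun p : ℕ => if GoodPrime a b p ∧ S p = true then
          (((pointCount a b p : ℝ) + 1) / p) ^
            (weight c (Real.log p / Real.log B) / density δ α p) else 1) ∧
        ∃ m : ℕ, analyticOrderAt F 1 = m ∧
          -- the law of the products over the primes of `S`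
          (∀ γ : ℝ, (1 + α) / 2 < γ → ∃ K : ℝ, ∀ B : ℝ, 3 ≤ B →
            |Real.log (thinProduct a b δ α c S B) - m * Real.log (Real.log B)| ≤
              K * (1 + Real.log (Real.log B)) ^ γ) ∧
          -- the products over the primes of `S` and the number of the rational points
          Tendsto (fun B : ℝ => (2 * Real.log (count a b B) -
            Real.log (thinProduct a b δ α c S B)) / Real.log (Real.log B)) atTop
            (𝓝 ((rank a b : ℝ) - m)) ∧
          -- the rank conjecture
          (m = rank a b ↔ Tendsto (fun B : ℝ =>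
            Real.log (thinProduct a b δ α c S B) / Real.log (Real.log B)) atTop
            (𝓝 (rank a b : ℝ))) ∧
          (m = rank a b ↔ Tendsto (fun B : ℝ => (2 * Real.log (count a b B) -
            Real.log (thinProduct a b δ α c S B)) / Real.log (Real.log B)) atTop (𝓝 0)) := by
  have h1 := R376.Rnd.count_law hδ hδ1 hα
  have h2 : ∀ᵐ S ∂(R376.Rnd.lawS (R376.Rnd.dens δ α)), ∀ a b : ℤ, ∀ γ : ℝ, (1 + α) / 2 < γ →
      ∃ A : ℝ, ∀ N : ℕ, |∑ n ∈ Finset.range (N + 1), R376.Rnd.cen (R376.Rnd.dens δ α) S n *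
        R376.Rnd.xx a b n| ≤ A * R376.Rnd.EE (Real.log N) ^ γ := by
    rw [ae_all_iff]
    intro a
    rw [ae_all_iff]
    intro b
    obtain ⟨K, hK⟩ := R376.Rnd.xx_sq a b
    exact R376.Rnd.as_bound hδ hδ1 hα _ hK
  have h3 : ∀ᵐ S ∂(R376.Rnd.lawS (R376.Rnd.dens δ α)), _ := h1.and h2
  refine h3.mono ?_
  rintro S ⟨hS1, hS2⟩
  refine ⟨?_, fun a b hΔ F hF c hc => ?_⟩
  · refine hS1.congr fun N => ?_
    unfold primesIn R376.Rnd.cntS
    congr!
  have hF' : Pool.Agent.W263.BSD.IsLSeries a b F := hF
  obtain ⟨m, hm⟩ := Pool.Agent.W263.BSD.order_finite hF'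
  obtain ⟨κ, hκ, hN⟩ := R376.Ner.neron a b hΔ
  have hN' : Tendsto (fun B => (fun B : ℝ => (count a b B : ℝ)) B /
      Real.log B ^ ((rank a b : ℝ) / 2)) atTop (𝓝 κ) := hN
  have hcount := lim_count hκ hN'
  have hlog : ∀ B : ℝ, 3 ≤ B → Real.log (thinProduct a b δ α c S B) =
      R376.Rnd.thinSum a b δ α c S (Real.log B) := fun B hB =>
    R376.Rnd.log_thinProd hδ hα a b c S (by linarith)
  have hlaw : ∀ γ : ℝ, (1 + α) / 2 < γ → ∃ K : ℝ, ∀ B : ℝ, 3 ≤ B →
      |Real.log (thinProduct a b δ α c S B) - m * Real.log (Real.log B)| ≤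
        K * (1 + Real.log (Real.log B)) ^ γ := by
    intro γ hγ
    obtain ⟨K, hK⟩ := R376.Rnd.thin_law hδ hα hF' hm hc S (by linarith) (hS2 a b γ hγ)
    refine ⟨K, fun B hB => ?_⟩
    rw [hlog B hB]
    exact hK B hB
  obtain ⟨K, hK⟩ := hlaw ((3 + α) / 4) (by linarith)
  have hlim : Tendsto (fun B : ℝ => Real.log (thinProduct a b δ α c S B) /
      Real.log (Real.log B)) atTop (𝓝 (m : ℝ)) :=
    lim_of_law (L := fun B => Real.log (thinProduct a b δ α c S B)) (by linarith) (by linarith) hK
  have hdiff : Tendsto (fun B : ℝ => (2 * Real.log (count a b B) -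
      Real.log (thinProduct a b δ α c S B)) / Real.log (Real.log B)) atTop
      (𝓝 ((rank a b : ℝ) - m)) := by
    refine (hcount.sub hlim).congr fun B => ?_
    rw [sub_div]
  refine ⟨fun B hB => (R376.Rnd.thinProd_hasProd hδ hα a b c S hB).multipliable, m, hm, hlaw, hdiff,
    ⟨fun h => ?_, fun h => ?_⟩, ⟨fun h => ?_, fun h => ?_⟩⟩
  · rwa [h] at hlim
  · exact_mod_cast tendsto_nhds_unique hlim h
  · rwa [h, sub_self] at hdiff
  · have := tendsto_nhds_unique hdiff h
    have h4 : (rank a b : ℝ) = m := by linarith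
    exact_mod_cast h4.symm

end Pool.Agent.Results.MP_3283e1_nt.ThinSetsOfPrimes
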